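import Pool.Agent.H83.VU.Targets

set_option autoImplicit false

open Finset Pool.Agent.H83.VU

namespace Pool.Agent.H99.VU

private theorem bi1_dt {k s : ℕ} (a : Fin k → ℝ) (x : ℤ) (u : Fin s → ℤ) :
    ∑ i, dt a (pw k (x * u i)) = dt a (pw k x * ps k u) := by
  unfold dt
  rw [sum_comm]
  refine sum_congr rfl fun j _ => ?_
  simp only [pw, ps, Pi.mul_apply]
  rw [← mul_sum]
  congr 1
  push_cast
  rw [mul_sum]
  refine sum_congr rfl fun i _ => ?_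
  rw [mul_pow]

private theorem bi1_pow {k : ℕ} (s Z : ℕ) (a : Fin k → ℝ) (x : ℤ) :
    (∑ y ∈ Icc 1 (Z : ℤ), e (dt a (pw k (x * y)))) ^ s =
      ∑ u ∈ box s Z, e (dt a (pw k x * ps k u)) := by
  rw [Finset.sum_pow']
  refine sum_congr rfl fun u _ => ?_
  rw [← e_sum, bi1_dt]

private theorem bi1_sq {k : ℕ} (s Z : ℕ) (a : Fin k → ℝ) (x : ℤ) :
    ((‖∑ y ∈ Icc 1 (Z : ℤ), e (dt a (pw k (x * y)))‖ ^ (2 * s) : ℝ) : ℂ) =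
      ∑ q ∈ box s Z ×ˢ box s Z, e (dt a (pw k x * (ps k q.1 - ps k q.2))) := by
  have h1 : ((‖∑ y ∈ Icc 1 (Z : ℤ), e (dt a (pw k (x * y)))‖ ^ (2 * s) : ℝ) : ℂ) =
      (∑ y ∈ Icc 1 (Z : ℤ), e (dt a (pw k (x * y)))) ^ s *
        (starRingEnd ℂ) ((∑ y ∈ Icc 1 (Z : ℤ), e (dt a (pw k (x * y)))) ^ s) := by
    rw [Complex.mul_conj, Complex.normSq_eq_norm_sq, norm_pow]
    congr 1
    ring
  rw [h1, bi1_pow, map_sum, sum_mul_sum, sum_product]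
  refine sum_congr rfl fun u _ => sum_congr rfl fun v _ => ?_
  rw [← e_neg, ← e_add, mul_sub, dt_sub]
  congr 1

theorem pf_BI1 : T_BI1 := by
  intro k s Z a hs
  obtain ⟨n, hn⟩ : ∃ n, 2 * s = n + 1 := ⟨2 * s - 1, by omega⟩
  have hn2 : 2 * s - 1 = n := by omega
  have h1 : ‖BB a Z‖ ≤ ∑ x ∈ Icc 1 (Z : ℤ), ‖∑ y ∈ Icc 1 (Z : ℤ), e (dt a (pw k (x * y)))‖ :=
    norm_sum_le _ _
  have h2 : (∑ x ∈ Icc 1 (Z : ℤ), ‖∑ y ∈ Icc 1 (Z : ℤ), e (dt a (pw k (x * y)))‖) ^ (2 * s) ≤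
      (Z : ℝ) ^ (2 * s - 1) *
        ∑ x ∈ Icc 1 (Z : ℤ), ‖∑ y ∈ Icc 1 (Z : ℤ), e (dt a (pw k (x * y)))‖ ^ (2 * s) := by
    rcases Nat.eq_zero_or_pos Z with hZ | hZ
    · subst hZ
      have : Icc 1 ((0 : ℕ) : ℤ) = ∅ := by simp
      rw [this, sum_empty, sum_empty, mul_zero, zero_pow (by omega)]
    have h3 := pow_sum_div_card_le_sum_pow (s := Icc 1 (Z : ℤ))
      (f := fun x => ‖∑ y ∈ Icc 1 (Z : ℤ), e (dt a (pw k (x * y)))‖)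
      (fun x _ => norm_nonneg _) n
    have hc : ((Icc 1 (Z : ℤ)).card : ℝ) = Z := by simp
    rw [hc, div_le_iff₀ (by positivity)] at h3
    rw [hn2, hn, mul_comm]
    exact h3
  have h4 : ((∑ x ∈ Icc 1 (Z : ℤ), ‖∑ y ∈ Icc 1 (Z : ℤ), e (dt a (pw k (x * y)))‖ ^ (2 * s) : ℝ) : ℂ)
      = ∑ q ∈ box s Z ×ˢ box s Z, VV a Z (ps k q.1 - ps k q.2) := by
    rw [Complex.ofReal_sum]
    unfold VV
    rw [sum_comm]
    exact sum_congr rfl fun x _ => bi1_sq s Z a x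
  have h5 : ∑ x ∈ Icc 1 (Z : ℤ), ‖∑ y ∈ Icc 1 (Z : ℤ), e (dt a (pw k (x * y)))‖ ^ (2 * s) ≤
      ∑ q ∈ box s Z ×ˢ box s Z, ‖VV a Z (ps k q.1 - ps k q.2)‖ := by
    refine le_trans ?_ (norm_sum_le _ _)
    rw [← h4, Complex.norm_real]
    exact le_abs_self _
  calc ‖BB a Z‖ ^ (2 * s) ≤
      (∑ x ∈ Icc 1 (Z : ℤ), ‖∑ y ∈ Icc 1 (Z : ℤ), e (dt a (pw k (x * y)))‖) ^ (2 * s) :=
        pow_le_pow_left₀ (norm_nonneg _) h1 _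
    _ ≤ _ := h2
    _ ≤ _ := mul_le_mul_of_nonneg_left h5 (by positivity)

end Pool.Agent.H99.VU
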