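import Pool.Agent.H83.VU.Targets

set_option autoImplicit false

open Finset Pool.Agent.H83.VU

namespace Pool.Agent.H99.VU

theorem pf_PRM (hNEW : T_NEW) : T_PRM := by
  intro k p m x y hp hk hm hx hy hs
  have hpZ : Prime (p : ℤ) := Nat.prime_iff_prime_int.mp hp
  have key : ∀ i : Fin k, ∃ l : Fin k, (p : ℤ) ^ m ∣ y i - x l := by
    intro i
    have h0 := hNEW k p m x y hp hk hs (y i)
    have h1 : ∏ l, (y i - y l) = 0 := prod_eq_zero (mem_univ i) (sub_self _)
    rw [h1, sub_zero] at h0
    have h2 : (p : ℤ) ∣ ∏ l, (y i - x l) := (dvd_pow_self _ (by omega)).trans h0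
    obtain ⟨l, -, hl⟩ := hpZ.exists_mem_finset_dvd h2
    refine ⟨l, ?_⟩
    rw [← mul_prod_erase univ (fun l => y i - x l) (mem_univ l)] at h0
    have hcop : IsCoprime ((p : ℤ) ^ m) (∏ l' ∈ univ.erase l, (y i - x l')) := by
      apply IsCoprime.pow_left
      apply IsCoprime.prod_right
      intro l' hl'
      rw [Prime.coprime_iff_not_dvd hpZ]
      intro hd
      have h3 : (p : ℤ) ∣ x l' - x l := by
        have := dvd_sub hl hd
        have h4 : y i - x l - (y i - x l') = x l' - x l := by ring
        rwa [h4] at this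
      exact (mem_erase.mp hl').1 (hx l' l h3)
    exact hcop.dvd_of_dvd_mul_right h0
  choose sig hsig using key
  have hinj : Function.Injective sig := by
    intro i i' h
    apply hy i i'
    have h1 := dvd_sub (hsig i) (hsig i')
    rw [h] at h1
    have h2 : y i - x (sig i') - (y i' - x (sig i')) = y i - y i' := by ring
    rw [h2] at h1
    exact (dvd_pow_self _ (by omega)).trans h1
  exact ⟨Equiv.ofBijective sig (Finite.injective_iff_bijective.mp hinj), fun i => hsig i⟩

end Pool.Agent.H99.VU
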