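import Pool.Agent.H83.VU.Targets

set_option autoImplicit false

open Finset Pool.Agent.H83.VU

namespace Pool.Agent.H99.VU

private theorem shf_short (f : ℕ → ℂ) (hf : ∀ n, ‖f n‖ ≤ 1) (t m : ℕ) :
    ‖∑ n ∈ Ioc t (t + m), f n‖ ≤ m := by
  have h := norm_sum_le_of_le (Ioc t (t + m)) (f := f) (n := fun _ => (1 : ℝ)) (fun n _ => hf n)
  simpa using h

private theorem shf_one (f : ℕ → ℂ) (hf : ∀ n, ‖f n‖ ≤ 1) (N N' m : ℕ) (hN : N ≤ N') :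
    ‖∑ n ∈ Ioc N N', f n - ∑ n ∈ Ioc N N', f (n + m)‖ ≤ 2 * m := by
  have h1 : ∑ n ∈ Ioc N N', f (n + m) = ∑ n ∈ Ioc (N + m) (N' + m), f n := by
    rw [← Finset.map_add_right_Ioc, sum_map]
    rfl
  have h2 := sum_Ioc_consecutive f hN (Nat.le_add_right N' m)
  have h3 := sum_Ioc_consecutive f (Nat.le_add_right N m) (Nat.add_le_add_right hN m)
  have h4 : ∑ n ∈ Ioc N N', f n - ∑ n ∈ Ioc N N', f (n + m) =
      ∑ n ∈ Ioc N (N + m), f n - ∑ n ∈ Ioc N' (N' + m), f n := by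
    rw [h1]
    linear_combination h2 - h3
  rw [h4]
  calc _ ≤ ‖∑ n ∈ Ioc N (N + m), f n‖ + ‖∑ n ∈ Ioc N' (N' + m), f n‖ := norm_sub_le _ _
    _ ≤ m + m := add_le_add (shf_short f hf N m) (shf_short f hf N' m)
    _ = 2 * m := by ring

theorem pf_SHF : T_SHF := by
  intro f N N' Z hf hN
  set S := ∑ n ∈ Ioc N N', f n with hS
  have h1 : ∑ x ∈ Icc 1 Z, ∑ y ∈ Icc 1 Z, S = (Z : ℂ) ^ 2 * S := by
    simp
    ring
  have h2 : ∑ x ∈ Icc 1 Z, ∑ y ∈ Icc 1 Z, ∑ n ∈ Ioc N N', f (n + x * y) =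
      ∑ n ∈ Ioc N N', ∑ x ∈ Icc 1 Z, ∑ y ∈ Icc 1 Z, f (n + x * y) := by
    calc ∑ x ∈ Icc 1 Z, ∑ y ∈ Icc 1 Z, ∑ n ∈ Ioc N N', f (n + x * y)
        = ∑ x ∈ Icc 1 Z, ∑ n ∈ Ioc N N', ∑ y ∈ Icc 1 Z, f (n + x * y) :=
          sum_congr rfl fun x _ => sum_comm
      _ = _ := sum_comm
  have h3 : (Z : ℂ) ^ 2 * S = ∑ n ∈ Ioc N N', ∑ x ∈ Icc 1 Z, ∑ y ∈ Icc 1 Z, f (n + x * y) +
      ∑ x ∈ Icc 1 Z, ∑ y ∈ Icc 1 Z, (S - ∑ n ∈ Ioc N N', f (n + x * y)) := by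
    rw [← h2, ← h1, ← sum_add_distrib]
    refine sum_congr rfl fun x _ => ?_
    rw [← sum_add_distrib]
    refine sum_congr rfl fun y _ => ?_
    ring
  have h4 : ‖∑ x ∈ Icc 1 Z, ∑ y ∈ Icc 1 Z, (S - ∑ n ∈ Ioc N N', f (n + x * y))‖ ≤
      2 * (Z : ℝ) ^ 4 := by
    have h5 : ∀ x ∈ Icc 1 Z, ‖∑ y ∈ Icc 1 Z, (S - ∑ n ∈ Ioc N N', f (n + x * y))‖ ≤
        2 * (Z : ℝ) ^ 3 := by
      intro x hx
      have h6 : ∀ y ∈ Icc 1 Z, ‖S - ∑ n ∈ Ioc N N', f (n + x * y)‖ ≤ 2 * (Z : ℝ) ^ 2 := by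
        intro y hy
        refine (shf_one f hf N N' (x * y) hN).trans ?_
        have hx1 : (x : ℝ) ≤ Z := by exact_mod_cast (mem_Icc.mp hx).2
        have hy1 : (y : ℝ) ≤ Z := by exact_mod_cast (mem_Icc.mp hy).2
        push_cast
        nlinarith [mul_le_mul hx1 hy1 (Nat.cast_nonneg y) (Nat.cast_nonneg Z)]
      refine (norm_sum_le_of_le _ h6).trans ?_
      simp
      apply le_of_eq
      ring
    refine (norm_sum_le_of_le _ h5).trans ?_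
    simp
    apply le_of_eq
    ring
  have h7 : ‖S‖ * (Z : ℝ) ^ 2 = ‖(Z : ℂ) ^ 2 * S‖ := by
    rw [norm_mul, norm_pow, Complex.norm_natCast]
    ring
  rw [h7, h3]
  exact (norm_add_le _ _).trans (add_le_add (norm_sum_le _ _) h4)

end Pool.Agent.H99.VU
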